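import Pool.Agent.H866R3.Upper
import Pool.Agent.H866R3.BurrLower
set_option autoImplicit false
open Filter Topology SimpleGraph

namespace Pool.Agent.Results.MP_624632_co.LogAsymptotic

/-- The (diagonal, two-colour) Ramsey number of a finite graph `G`: the least `N` such that for every
colouring of the edges of `K_N` with two colours (the edges of `H` and the edges of its complement)
one of the two colour classes contains a copy of `G`. -/
noncomputable def ramseyNumber {n : ℕ} (G : SimpleGraph (Fin n)) : ℕ :=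
  sInf {N : ℕ | ∀ H : SimpleGraph (Fin N), G.IsContained H ∨ G.IsContained Hᶜ}

/-- The least Ramsey number of a graph on exactly `n` vertices without isolated vertices. -/
noncomputable def f (n : ℕ) : ℕ :=
  sInf {r : ℕ | ∃ G : SimpleGraph (Fin n), (∀ v, ∃ w, G.Adj v w) ∧ ramseyNumber G = r}

theorem ramseyNumber_spec {n : ℕ} (G : SimpleGraph (Fin n)) :
    ∀ H : SimpleGraph (Fin (ramseyNumber G)), G.IsContained H ∨ G.IsContained Hᶜ :=
  Nat.sInf_mem (H866R3.ramsey_exists G)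

theorem upper_real (e : ℝ) (he : 0 < e) : ∀ᶠ n : ℕ in atTop,
    (∃ G : SimpleGraph (Fin n), ∀ v, ∃ w, G.Adj v w) ∧
      (f n : ℝ) ≤ n + (1 + e) * Real.logb 2 n := by
  obtain ⟨q, hq⟩ := exists_nat_gt (max 1 (16 / e))
  have hq1 : 1 ≤ q := by
    have := (le_max_left 1 (16 / e)).trans_lt hq
    exact_mod_cast this.le
  have hq2 : 16 / e < q := (le_max_right 1 (16 / e)).trans_lt hq
  have hqR : (0 : ℝ) < q := by exact_mod_cast hq1
  have hqe : 8 / (q : ℝ) ≤ e / 2 := by
    rw [div_lt_iff₀ he] at hq2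
    rw [div_le_div_iff₀ hqR (by norm_num)]
    linarith
  obtain ⟨n0, hn0⟩ := H866R3.upper q hq1
  set C : ℕ := H866R3.cC q with hC
  have hCpos : 0 < C := by rw [hC]; unfold H866R3.cC; omega
  have hCR : (0 : ℝ) < C := by exact_mod_cast hCpos
  have hlog : Tendsto (fun n : ℕ => Real.logb 2 (n : ℝ)) atTop atTop :=
    (Real.tendsto_logb_atTop (by norm_num)).comp tendsto_natCast_atTop_atTop
  have hev := (hlog.eventually_ge_atTop ((2 / e) * ((1 + 7 / q) + (q + 7) * C)))
  filter_upwards [hev, eventually_ge_atTop n0, eventually_ge_atTop 2] with n hn1 hn2 hn3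
  obtain ⟨G, hG, hH⟩ := hn0 n hn2
  refine ⟨⟨G, hG⟩, ?_⟩
  have h1 : f n ≤ n + (q + 7) * (C * H866R3.vOf q n) := by
    calc f n ≤ ramseyNumber G := Nat.sInf_le ⟨G, hG, rfl⟩
      _ ≤ _ := Nat.sInf_le hH
  have h2 : ((H866R3.vOf q n : ℕ) : ℝ) ≤ (Nat.clog 2 n : ℝ) / (q * C) + 1 := by
    unfold H866R3.vOf
    push_cast
    have := @Nat.cast_div_le ℝ _ _ _ (Nat.clog 2 n) (q * C)
    push_cast at this
    linarith
  have h3 : (Nat.clog 2 n : ℝ) ≤ Real.logb 2 n + 1 := by
    have h4 : 2 ^ (Nat.clog 2 n - 1) < n := Nat.pow_pred_clog_lt_self (by norm_num) (by omega)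
    have h5 : 1 ≤ Nat.clog 2 n := Nat.clog_pos (by norm_num) (by omega)
    have h6 : ((Nat.clog 2 n - 1 : ℕ) : ℝ) ≤ Real.logb 2 n := by
      rw [Real.le_logb_iff_rpow_le (by norm_num) (by positivity), Real.rpow_natCast]
      exact_mod_cast h4.le
    rw [Nat.cast_sub h5] at h6
    push_cast at h6
    linarith
  have h7 : (f n : ℝ) ≤ n + (q + 7) * (C * H866R3.vOf q n) := by exact_mod_cast h1
  set ℓ := Real.logb 2 (n : ℝ) with hℓ
  have h8 : ((q : ℝ) + 7) * (C * H866R3.vOf q n) ≤ (1 + 7 / q) * (ℓ + 1) + (q + 7) * C := by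
    calc ((q : ℝ) + 7) * (C * H866R3.vOf q n)
        ≤ (q + 7) * (C * ((ℓ + 1) / (q * C) + 1)) := by
          gcongr
          refine h2.trans ?_
          gcongr
      _ = (1 + 7 / q) * (ℓ + 1) + (q + 7) * C := by
          field_simp
  have h9 : (2 / e) * ((1 + 7 / q) + (q + 7) * C) ≤ ℓ := hn1
  have h10 : (1 + 7 / q : ℝ) + (q + 7) * C ≤ e / 2 * ℓ := by
    have := mul_le_mul_of_nonneg_left h9 (by positivity : (0 : ℝ) ≤ e / 2)
    have e1 : e / 2 * ((2 / e) * ((1 + 7 / q) + (q + 7) * C)) = (1 + 7 / q : ℝ) + (q + 7) * C := by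
      field_simp
    linarith
  have hℓ0 : 0 ≤ ℓ := by
    refine le_trans ?_ h9
    positivity
  have h11 : (7 / q : ℝ) * ℓ ≤ e / 2 * ℓ := by
    apply mul_le_mul_of_nonneg_right _ hℓ0
    refine le_trans ?_ hqe
    gcongr
    norm_num
  nlinarith

theorem lower_real (e : ℝ) (he : 0 < e) : ∀ᶠ n : ℕ in atTop,
    (∃ G : SimpleGraph (Fin n), ∀ v, ∃ w, G.Adj v w) →
      (n : ℝ) + (1 - e) * Real.logb 2 n ≤ f n := by
  obtain ⟨n0, hn0⟩ := H866R3.Burr.burr_lower e he
  filter_upwards [eventually_ge_atTop n0] with n hn hex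
  obtain ⟨G0, hG0⟩ := hex
  have hne : {r : ℕ | ∃ G : SimpleGraph (Fin n), (∀ v, ∃ w, G.Adj v w) ∧ ramseyNumber G = r}.Nonempty :=
    ⟨_, G0, hG0, rfl⟩
  obtain ⟨G, hG, hGf⟩ := Nat.sInf_mem hne
  have hfG : ramseyNumber G = f n := hGf
  by_contra hcon
  push Not at hcon
  rw [← hfG] at hcon
  obtain ⟨H, h1, h2⟩ := hn0 n hn (ramseyNumber G) hcon G hG
  rcases ramseyNumber_spec G H with h | h
  · exact h1 h
  · exact h2 h

/-- `f(n) = n + (1 + o(1)) log_2 n`. -/
theorem result : Tendsto (fun n : ℕ => ((f n : ℝ) - n) / Real.logb 2 n) atTop (𝓝 1) := by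
  rw [Metric.tendsto_nhds]
  intro e he
  have hlog : Tendsto (fun n : ℕ => Real.logb 2 (n : ℝ)) atTop atTop :=
    (Real.tendsto_logb_atTop (by norm_num)).comp tendsto_natCast_atTop_atTop
  filter_upwards [upper_real (e / 2) (by positivity), lower_real (e / 2) (by positivity),
    hlog.eventually_gt_atTop 0] with n h1 h2 h3
  have h4 := h2 h1.1
  have h5 := h1.2
  rw [Real.dist_eq, abs_lt]
  constructor
  · rw [lt_sub_iff_add_lt, lt_div_iff₀ h3]
    nlinarith
  · rw [sub_lt_iff_lt_add, div_lt_iff₀ h3]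
    nlinarith

end Pool.Agent.Results.MP_624632_co.LogAsymptotic
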